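import Mathlib
import Pool.Agent.H668R3.NcInt.Ex5

/-! commutators with functions of the operator `D` of the starting example -/

set_option autoImplicit false

open Filter Topology
open scoped InnerProductSpace ComplexOrder symmDiff

noncomputable section

namespace Pool.Agent.Y53.SD

open Pool.Agent.H668R3.NcInt

/-- the operators which leave the domain of `D` invariant and have a bounded commutator -/
def Good (m : Ix → ℝ) (a : L2 Ix →L[ℂ] L2 Ix) : Prop :=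
  ∃ C : ℝ, ∀ x : (Dg m).domain, ∃ hx : a (x : L2 Ix) ∈ (Dg m).domain,
    ‖Dg m ⟨a (x : L2 Ix), hx⟩ - a (Dg m x)‖ ≤ C * ‖(x : L2 Ix)‖

lemma good_G {m : Ix → ℝ} (hm : ∀ (j : ℕ) (t : Finset ℕ), ∃ C : ℝ, 0 ≤ C ∧
    ∀ s, |m (j, s) - m (j, s ∆ t)| ≤ C) (j : ℕ) (t : Finset ℕ) : Good m (G j t) := by
  obtain ⟨C, hC0, hC⟩ := hm j t
  refine ⟨C, fun x => ?_⟩
  have hbd : ∀ p : Ix, ‖(m p : ℂ) * (G j t x) p - (G j t (Dg m x)) p‖ ≤
      C * ‖(x : L2 Ix) (p.1, p.2 ∆ t)‖ := by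
    intro p
    rw [G_apply, G_apply]
    split_ifs with h
    · rw [Dg_apply, ← sub_mul, norm_mul, ← Complex.ofReal_sub, Complex.norm_real, Real.norm_eq_abs]
      apply mul_le_mul_of_nonneg_right _ (norm_nonneg _)
      have := hC p.2
      have hp : p = (j, p.2) := Prod.ext h rfl
      have hp1 : p.1 = j := h
      rw [hp1]
      rw [← hp] at this
      exact this
    · simp only [mul_zero, sub_zero, norm_zero]
      positivity
  have hs1 : Summable fun p : Ix => ‖(x : L2 Ix) (p.1, p.2 ∆ t)‖ ^ 2 :=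
    ((shift t).summable_iff).mpr (l2_summable (x : L2 Ix))
  have hs2 : Summable fun p : Ix => ‖(m p : ℂ) * (G j t x) p - (G j t (Dg m x)) p‖ ^ 2 := by
    refine Summable.of_nonneg_of_le (fun i => by positivity) (fun p => ?_)
      (hs1.mul_left ((C) ^ 2))
    rw [← mul_pow]
    exact pow_le_pow_left₀ (norm_nonneg _) (hbd p) 2
  have hx : G j t (x : L2 Ix) ∈ (Dg m).domain := by
    rw [mem_Dg]
    have := summable_add_sq hs2 (l2_summable (G j t (Dg m x)))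
    refine this.congr fun p => ?_
    rw [sub_add_cancel]
  refine ⟨hx, ?_⟩
  have h1 : ‖Dg m ⟨G j t (x : L2 Ix), hx⟩ - G j t (Dg m x)‖ ^ 2 ≤
      (C * ‖(x : L2 Ix)‖) ^ 2 := by
    rw [mul_pow, l2_norm_sq, l2_norm_sq, ← (shift t).tsum_eq (fun i => ‖(x : L2 Ix) i‖ ^ 2),
      ← tsum_mul_left]
    refine Summable.tsum_le_tsum (fun p => ?_) (l2_summable _)
      (hs1.mul_left ((C) ^ 2))
    rw [← mul_pow]
    exact pow_le_pow_left₀ (norm_nonneg _) (hbd p) 2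
  exact le_of_sq_le_sq h1 (by positivity)

lemma good_add {m : Ix → ℝ} {a b : L2 Ix →L[ℂ] L2 Ix} (ha : Good m a) (hb : Good m b) : Good m (a + b) := by
  obtain ⟨C₁, h₁⟩ := ha
  obtain ⟨C₂, h₂⟩ := hb
  refine ⟨C₁ + C₂, fun x => ?_⟩
  obtain ⟨hx₁, hn₁⟩ := h₁ x
  obtain ⟨hx₂, hn₂⟩ := h₂ x
  refine ⟨Submodule.add_mem _ hx₁ hx₂, ?_⟩
  have h : Dg m ⟨(a + b) (x : L2 Ix), Submodule.add_mem _ hx₁ hx₂⟩ =
      Dg m ⟨a (x : L2 Ix), hx₁⟩ + Dg m ⟨b (x : L2 Ix), hx₂⟩ := by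
    rw [← LinearPMap.map_add]
    rfl
  rw [h, add_apply]
  calc ‖Dg m ⟨a (x : L2 Ix), hx₁⟩ + Dg m ⟨b (x : L2 Ix), hx₂⟩ - (a (Dg m x) + b (Dg m x))‖
      = ‖(Dg m ⟨a (x : L2 Ix), hx₁⟩ - a (Dg m x)) +
        (Dg m ⟨b (x : L2 Ix), hx₂⟩ - b (Dg m x))‖ := by congr 1; abel
    _ ≤ _ := norm_add_le _ _
    _ ≤ (C₁ + C₂) * ‖(x : L2 Ix)‖ := by rw [add_mul]; exact add_le_add hn₁ hn₂

lemma good_mul {m : Ix → ℝ} {a b : L2 Ix →L[ℂ] L2 Ix} (ha : Good m a) (hb : Good m b) : Good m (a * b) := by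
  obtain ⟨C₁, h₁⟩ := ha
  obtain ⟨C₂, h₂⟩ := hb
  refine ⟨|C₁| * ‖b‖ + ‖a‖ * C₂, fun x => ?_⟩
  obtain ⟨hx₂, hn₂⟩ := h₂ x
  obtain ⟨hx₁, hn₁⟩ := h₁ ⟨b (x : L2 Ix), hx₂⟩
  refine ⟨hx₁, ?_⟩
  change ‖Dg m ⟨a (b (x : L2 Ix)), hx₁⟩ - a (b (Dg m x))‖ ≤ _
  calc ‖Dg m ⟨a (b (x : L2 Ix)), hx₁⟩ - a (b (Dg m x))‖
      = ‖(Dg m ⟨a (b (x : L2 Ix)), hx₁⟩ - a (Dg m ⟨b (x : L2 Ix), hx₂⟩)) +
        a (Dg m ⟨b (x : L2 Ix), hx₂⟩ - b (Dg m x))‖ := by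
          congr 1; rw [map_sub]; abel
    _ ≤ ‖Dg m ⟨a (b (x : L2 Ix)), hx₁⟩ - a (Dg m ⟨b (x : L2 Ix), hx₂⟩)‖ +
        ‖a (Dg m ⟨b (x : L2 Ix), hx₂⟩ - b (Dg m x))‖ := norm_add_le _ _
    _ ≤ C₁ * ‖b (x : L2 Ix)‖ + ‖a‖ * (C₂ * ‖(x : L2 Ix)‖) := by
          refine add_le_add hn₁ ?_
          exact (a.le_opNorm _).trans (mul_le_mul_of_nonneg_left hn₂ (norm_nonneg _))
    _ ≤ |C₁| * (‖b‖ * ‖(x : L2 Ix)‖) + ‖a‖ * (C₂ * ‖(x : L2 Ix)‖) := by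
          refine add_le_add ?_ le_rfl
          exact mul_le_mul (le_abs_self _) (b.le_opNorm _) (norm_nonneg _) (abs_nonneg _)
    _ = _ := by ring

lemma good_algebraMap {m : Ix → ℝ} (c : ℂ) : Good m (algebraMap ℂ (L2 Ix →L[ℂ] L2 Ix) c) := by
  refine ⟨0, fun x => ?_⟩
  have h0 : (algebraMap ℂ (L2 Ix →L[ℂ] L2 Ix) c) (x : L2 Ix) = c • (x : L2 Ix) := rfl
  refine ⟨Submodule.smul_mem _ c x.2, ?_⟩
  have h : Dg m ⟨(algebraMap ℂ (L2 Ix →L[ℂ] L2 Ix) c) (x : L2 Ix),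
      Submodule.smul_mem _ c x.2⟩ = c • Dg m x := by
    rw [← LinearPMap.map_smul]
    rfl
  rw [h]
  change ‖c • Dg m x - c • Dg m x‖ ≤ _
  simp

lemma good_AA {m : Ix → ℝ} (hm : ∀ (j : ℕ) (t : Finset ℕ), ∃ C : ℝ, 0 ≤ C ∧
    ∀ s, |m (j, s) - m (j, s ∆ t)| ≤ C) : ∀ a ∈ AA, Good m a := by
  intro a ha
  have ha' : a ∈ Algebra.adjoin ℂ gens := by
    rw [← AA_toSub]; exact ha
  induction ha' using Algebra.adjoin_induction with
  | mem x hx => obtain ⟨p, rfl⟩ := hx; exact good_G hm _ _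
  | algebraMap r => exact good_algebraMap r
  | add x y hx hy h1 h2 =>
    exact good_add (h1 (by have : x ∈ AA.toSubalgebra := by rw [AA_toSub]; exact hx
                           exact this))
      (h2 (by have : y ∈ AA.toSubalgebra := by rw [AA_toSub]; exact hy
              exact this))
  | mul x y hx hy h1 h2 =>
    exact good_mul (h1 (by have : x ∈ AA.toSubalgebra := by rw [AA_toSub]; exact hx
                           exact this))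
      (h2 (by have : y ∈ AA.toSubalgebra := by rw [AA_toSub]; exact hy
              exact this))


end Pool.Agent.Y53.SD
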