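import Mathlib

/-! the continuous functional calculus on eigenvectors -/

set_option autoImplicit false

open Filter Topology
open scoped InnerProductSpace ComplexOrder

noncomputable section

namespace Pool.Agent.Y53.SD

variable {H : Type} [NormedAddCommGroup H] [InnerProductSpace ℂ H] [CompleteSpace H]

lemma cfc_eigen (T : H →L[ℂ] H) (hT : IsSelfAdjoint T) (f : ℝ → ℝ)
    (hf : ContinuousOn f (spectrum ℝ T)) (l : ℝ) (v : H) (hv : T v = ((l : ℝ) : ℂ) • v)
    (h0 : v ≠ 0) : (cfc f T) v = ((f l : ℝ) : ℂ) • v := by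
  have hl : l ∈ spectrum ℝ T := by
    rw [spectrum.mem_iff]
    rintro ⟨u, hu⟩
    have h1 : (u : H →L[ℂ] H) v = 0 := by
      rw [hu, ContinuousLinearMap.sub_apply, hv, Algebra.algebraMap_eq_smul_one]
      change l • v - ((l : ℝ) : ℂ) • v = 0
      rw [Complex.coe_smul, sub_self]
    have h2 : ((↑u⁻¹ : H →L[ℂ] H) * (u : H →L[ℂ] H)) v = v := by
      rw [Units.inv_mul]
      rfl
    have h3 : ((↑u⁻¹ : H →L[ℂ] H) * (u : H →L[ℂ] H)) v = 0 := by
      change (↑u⁻¹ : H →L[ℂ] H) ((u : H →L[ℂ] H) v) = 0
      rw [h1, map_zero]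
    exact h0 (h2.symm.trans h3)
  rw [cfc_apply f T hT hf]
  have key : ∀ g : C(spectrum ℝ T, ℝ), (cfcHom hT g) v = ((g ⟨l, hl⟩ : ℝ) : ℂ) • v := by
    intro g
    induction g using ContinuousMap.induction_on_of_compact with
    | const r =>
      have e : (ContinuousMap.const (spectrum ℝ T) r) = algebraMap ℝ C(spectrum ℝ T, ℝ) r := rfl
      rw [e, AlgHomClass.commutes, Algebra.algebraMap_eq_smul_one]
      change r • v = ((r : ℝ) : ℂ) • v
      rw [Complex.coe_smul]
    | id =>
      rw [cfcHom_id hT]
      exact hv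
    | star_id =>
      rw [star_trivial, cfcHom_id hT]
      exact hv
    | add f g hf hg =>
      rw [map_add, ContinuousLinearMap.add_apply, hf, hg, ← add_smul]
      congr 1
      rw [ContinuousMap.add_apply]
      push_cast
      rfl
    | mul f g hf hg =>
      rw [map_mul]
      change (cfcHom hT f) ((cfcHom hT g) v) = _
      rw [hg, map_smul, hf, smul_smul]
      congr 1
      rw [ContinuousMap.mul_apply]
      push_cast
      ring
    | frequently f h =>
      refine h.mem_of_closed (isClosed_eq ?_ ?_)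
      · have h1 : Continuous (cfcHom hT : C(spectrum ℝ T, ℝ) → (H →L[ℂ] H)) :=
          cfcHom_continuous hT
        exact (ContinuousLinearMap.apply ℂ H v).continuous.comp h1
      · have h1 : Continuous fun g : C(spectrum ℝ T, ℝ) => g ⟨l, hl⟩ :=
          ContinuousEvalConst.continuous_eval_const _
        exact (Complex.continuous_ofReal.comp h1).smul continuous_const
  exact key _

end Pool.Agent.Y53.SD
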