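import Mathlib
import Pool.Agent.Y53.SD.Com
import Pool.Agent.Y53.SD.Eig

/-! spectral triples of every dimension -/

set_option autoImplicit false

open Filter Topology
open scoped InnerProductSpace ComplexOrder symmDiff

noncomputable section

namespace Pool.Agent.Y53.SD

open Pool.Agent.H668R3.NcInt

/-- the eigenvalues of `⟨D⟩⁻¹` -/
def rn (n : ℝ) (p : Ix) : ℝ := rr p ^ (1 / n)

/-- the eigenvalues of `D` -/
def mu (n : ℝ) (p : Ix) : ℝ := Real.sqrt (rr p ^ (-(2 / n)) - 1)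

variable {n : ℝ}

lemma rn_pos (p : Ix) : 0 < rn n p := Real.rpow_pos_of_pos (rr_pos p) _

lemma rn_le_one (hn : 0 < n) (p : Ix) : rn n p ≤ 1 :=
  Real.rpow_le_one (rr_pos p).le (rr_le_one p) (by positivity)

lemma mu_nonneg (p : Ix) : 0 ≤ mu n p := Real.sqrt_nonneg _

lemma mu_sq (hn : 0 < n) (p : Ix) : 1 + mu n p ^ 2 = rr p ^ (-(2 / n)) := by
  have h : 1 ≤ rr p ^ (-(2 / n)) := by
    rw [Real.rpow_neg (rr_pos p).le]
    rw [one_le_inv₀ (Real.rpow_pos_of_pos (rr_pos p) _)]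
    exact Real.rpow_le_one (rr_pos p).le (rr_le_one p) (by positivity)
  unfold mu
  rw [Real.sq_sqrt (by linarith)]
  ring

lemma rn_sq (hn : 0 < n) (p : Ix) : rn n p ^ 2 * (1 + mu n p ^ 2) = 1 := by
  rw [mu_sq hn, rn, ← Real.rpow_natCast, ← Real.rpow_mul (rr_pos p).le,
    ← Real.rpow_add (rr_pos p)]
  have : 1 / n * ((2 : ℕ) : ℝ) + -(2 / n) = 0 := by push_cast; ring
  rw [this, Real.rpow_zero]

lemma rn_rpow (hn : 0 < n) (p : Ix) : rn n p ^ n = rr p := by
  rw [rn, ← Real.rpow_mul (rr_pos p).le]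
  have : 1 / n * n = 1 := by field_simp
  rw [this, Real.rpow_one]

lemma rn_norm (hn : 0 < n) (p : Ix) : ‖((rn n p : ℝ) : ℂ)‖ ≤ 1 := by
  rw [Complex.norm_real, Real.norm_eq_abs, abs_of_pos (rn_pos p)]
  exact rn_le_one hn p

/-- the operator `⟨D⟩⁻¹` -/
def RRn (hn : 0 < n) : L2 Ix →L[ℂ] L2 Ix := dg (fun p => ((rn n p : ℝ) : ℂ)) (rn_norm hn)

lemma RRn_apply (hn : 0 < n) (x : L2 Ix) (p : Ix) : (RRn hn x) p = ((rn n p : ℝ) : ℂ) * x p := rfl

lemma RRn_isPositive (hn : 0 < n) : (RRn hn).IsPositive :=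
  dg_isPositive _ (fun p => (rn_pos p).le) (rn_norm hn)

lemma mu_rn (hn : 0 < n) (p : Ix) : mu n p * rn n p * rn n p ≤ 1 := by
  have h3 := rn_sq hn p
  have h4 := mu_nonneg (n := n) p
  have h5 := rn_pos (n := n) p
  nlinarith [sq_nonneg (mu n p - 1), sq_nonneg (rn n p), mul_nonneg (sq_nonneg (rn n p)) (sq_nonneg (mu n p - 1))]

lemma mu_mu_rn (hn : 0 < n) (p : Ix) : mu n p * mu n p * rn n p * rn n p ≤ 1 := by
  have h3 := rn_sq hn p
  nlinarith [sq_nonneg (rn n p)]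

lemma bracket_RRn (hn : 0 < n) : IsBracketInv (Dg (mu n)) (RRn hn) := by
  refine ⟨RRn_isPositive hn, fun x => ?_⟩
  suffices h : ∃ (h₁ : RRn hn (RRn hn x) ∈ (Dg (mu n)).domain)
      (h₂ : Dg (mu n) ⟨RRn hn (RRn hn x), h₁⟩ ∈ (Dg (mu n)).domain),
      RRn hn (RRn hn x) + Dg (mu n) ⟨Dg (mu n) ⟨RRn hn (RRn hn x), h₁⟩, h₂⟩ = x by
    obtain ⟨h₁, h₂, h₃⟩ := h
    refine ⟨_, ⟨h₁, rfl⟩, ⟨h₂, ?_⟩⟩
    rw [eq_sub_iff_add_eq, add_comm]
    exact h₃
  have h1 : RRn hn (RRn hn x) ∈ (Dg (mu n)).domain := by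
    rw [mem_Dg]
    refine Summable.of_nonneg_of_le (fun i => by positivity) (fun i => ?_) (l2_summable x)
    rw [RRn_apply, RRn_apply, ← mul_assoc, ← mul_assoc, norm_mul, mul_pow]
    have h2 : ‖((mu n i : ℝ) : ℂ) * ((rn n i : ℝ) : ℂ) * ((rn n i : ℝ) : ℂ)‖ ≤ 1 := by
      rw [← Complex.ofReal_mul, ← Complex.ofReal_mul, Complex.norm_real, Real.norm_eq_abs,
        abs_of_nonneg (by
          have := rn_pos (n := n) i; have := mu_nonneg (n := n) i; positivity)]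
      exact mu_rn hn i
    have h5 : ‖((mu n i : ℝ) : ℂ) * ((rn n i : ℝ) : ℂ) * ((rn n i : ℝ) : ℂ)‖ ^ 2 ≤ 1 :=
      pow_le_one₀ (norm_nonneg _) h2
    nlinarith [sq_nonneg ‖x i‖]
  have h2 : Dg (mu n) ⟨RRn hn (RRn hn x), h1⟩ ∈ (Dg (mu n)).domain := by
    rw [mem_Dg]
    refine Summable.of_nonneg_of_le (fun i => by positivity) (fun i => ?_) (l2_summable x)
    rw [Dg_apply, RRn_apply, RRn_apply, ← mul_assoc, ← mul_assoc, ← mul_assoc, norm_mul, mul_pow]
    have h2 : ‖((mu n i : ℝ) : ℂ) * ((mu n i : ℝ) : ℂ) * ((rn n i : ℝ) : ℂ) *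
        ((rn n i : ℝ) : ℂ)‖ ≤ 1 := by
      rw [← Complex.ofReal_mul, ← Complex.ofReal_mul, ← Complex.ofReal_mul, Complex.norm_real,
        Real.norm_eq_abs,
        abs_of_nonneg (by
          have := rn_pos (n := n) i; have := mu_nonneg (n := n) i; positivity)]
      exact mu_mu_rn hn i
    have h5 : ‖((mu n i : ℝ) : ℂ) * ((mu n i : ℝ) : ℂ) * ((rn n i : ℝ) : ℂ) *
        ((rn n i : ℝ) : ℂ)‖ ^ 2 ≤ 1 :=
      pow_le_one₀ (norm_nonneg _) h2
    nlinarith [sq_nonneg ‖x i‖]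
  refine ⟨h1, h2, ?_⟩
  apply l2_ext
  intro i
  rw [l2_add, Dg_apply, Dg_apply, RRn_apply, RRn_apply]
  have h3 := rn_sq hn i
  have h4 : ((rn n i : ℝ) : ℂ) ^ 2 * (1 + ((mu n i : ℝ) : ℂ) ^ 2) = 1 := by
    exact_mod_cast congrArg (fun z : ℝ => (z : ℂ)) h3
  linear_combination (x i) * h4

lemma rpow_root_lt (hn : 0 < n) {ε x : ℝ} (hx : 0 ≤ x) (hε : 0 ≤ ε) (h : x ≤ ε ^ n) :
    x ^ (1 / n) ≤ ε := by
  calc x ^ (1 / n) ≤ (ε ^ n) ^ (1 / n) := Real.rpow_le_rpow hx h (by positivity)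
    _ = ε := by
        rw [← Real.rpow_mul hε]
        have : n * (1 / n) = 1 := by field_simp
        rw [this, Real.rpow_one]

lemma RRn_compact (hn : 0 < n) : IsCompactOperator (RRn hn) := by
  apply compact_of_sv (RRn hn) _ (rn_norm hn) (RRn_apply hn)
  intro ε hε
  have hεn : 0 < ε ^ n := Real.rpow_pos_of_pos hε _
  obtain ⟨X, hX⟩ := exists_nat_gt (1 / ε ^ n)
  refine ⟨low X, fun p hp => ?_⟩
  have h1 := not_mem_low hp
  rw [Complex.norm_real, Real.norm_eq_abs, abs_of_pos (rn_pos p)]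
  refine rpow_root_lt hn (rr_pos p).le hε.le ?_
  refine (rr_le_inv p).trans ?_
  rw [div_le_iff₀ (by linarith [one_le_lam p])]
  have h2 : 1 < ε ^ n * X := by
    have := (div_lt_iff₀ hεn).mp hX
    linarith
  nlinarith

lemma sv_upper (hn : 0 < n) (k : ℕ) : sv (RRn hn) k ≤ (2 / ((k : ℝ) + 1)) ^ (1 / n) := by
  apply sv_dg_upper (RRn hn) _ (rn_norm hn) (RRn_apply hn) (low (k / 2)) k
  · exact (card_low _).trans (by omega)
  · positivity
  · intro p hp
    have h1 := not_mem_low hp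
    rw [Complex.norm_real, Real.norm_eq_abs, abs_of_pos (rn_pos p)]
    refine Real.rpow_le_rpow (rr_pos p).le ?_ (by positivity)
    refine (rr_le_inv p).trans ?_
    rw [div_le_div_iff₀ (by linarith [one_le_lam p]) (by positivity)]
    have h2 : ((k : ℝ) + 1) ≤ 2 * (((k / 2 : ℕ) : ℝ) + 1) := by
      have : k + 1 ≤ 2 * (k / 2 + 1) := by omega
      exact_mod_cast this
    linarith

lemma sv_lower (hn : 0 < n) (k : ℕ) : (1 / ((k : ℝ) + 2)) ^ (1 / n) ≤ sv (RRn hn) k := by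
  apply sv_dg_lower (RRn hn) _ (RRn_apply hn) ((Finset.range (k + 1)).map
    ⟨fun j => ((j, ∅) : Ix), fun a b h => by simpa using h⟩) k (by simp)
  · positivity
  · intro p hp
    rw [Finset.mem_map] at hp
    obtain ⟨j, hj, rfl⟩ := hp
    rw [Finset.mem_range] at hj
    rw [Complex.norm_real, Real.norm_eq_abs, abs_of_pos (rn_pos _)]
    refine Real.rpow_le_rpow (by positivity) ?_ (by positivity)
    refine le_trans ?_ (inv_le_rr _)
    have h1 : lam (((⟨fun j => ((j, ∅) : Ix), fun a b h => by simpa using h⟩ : ℕ ↪ Ix)) j)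
        = (j : ℝ) + 1 := by
      change lam (j, ∅) = _
      simp [lam]
    rw [h1]
    apply one_div_le_one_div_of_le (by positivity)
    have : (j : ℝ) ≤ k := by exact_mod_cast Nat.lt_succ_iff.mp hj
    linarith

/-- functions of `lam` have bounded commutators with the generators -/
lemma comm_bd (F : ℝ → ℝ) (j : ℕ) (t : Finset ℕ) : ∃ C : ℝ, 0 ≤ C ∧
    ∀ s, |F (lam (j, s)) - F (lam (j, s ∆ t))| ≤ C := by
  set B : ℝ := ∑ l ∈ Finset.range (lev t + 1), |F (((j : ℝ) + 1) * 4 ^ l)| with hB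
  have hB0 : 0 ≤ B := Finset.sum_nonneg fun _ _ => abs_nonneg _
  have hle : ∀ s : Finset ℕ, lev s ≤ lev t → |F (lam (j, s))| ≤ B := by
    intro s hs
    exact Finset.single_le_sum (f := fun l => |F (((j : ℝ) + 1) * 4 ^ l)|)
      (fun _ _ => abs_nonneg _) (Finset.mem_range.2 (Nat.lt_succ_of_le hs))
  refine ⟨B + B, by linarith, fun s => ?_⟩
  rcases le_or_gt (lev s) (lev t) with h | h
  · have h2 : lev (s ∆ t) ≤ lev t := (lev_symmDiff_le _ _).trans (max_le h le_rfl)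
    exact (abs_sub _ _).trans (add_le_add (hle _ h) (hle _ h2))
  · have h2 : lev (s ∆ t) ≤ lev s := (lev_symmDiff_le _ _).trans (max_le le_rfl h.le)
    have h3 : lev s ≤ lev (s ∆ t) := by
      have h4 := lev_symmDiff_le (s ∆ t) t
      rw [symmDiff_symmDiff_cancel_right] at h4
      rcases le_max_iff.mp h4 with h5 | h5
      · exact h5
      · omega
    have h4 : lam (j, s) = lam (j, s ∆ t) := by
      unfold lam
      simp only
      rw [le_antisymm h2 h3]
    rw [h4, sub_self, abs_zero]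
    linarith

lemma comm_mu (n : ℝ) (j : ℕ) (t : Finset ℕ) : ∃ C : ℝ, 0 ≤ C ∧
    ∀ s, |mu n (j, s) - mu n (j, s ∆ t)| ≤ C :=
  comm_bd (fun x => Real.sqrt ((1 / Real.sqrt (1 + x ^ 2)) ^ (-(2 / n)) - 1)) j t

/-- the spectral triple of dimension `n` -/
def STn (hn : 0 < n) : SpectralTriple (L2 Ix) where
  A := AA
  countably_generated := ⟨gens, Set.countable_range _, rfl⟩
  D := Dg (mu n)
  selfAdjoint := Dg_selfAdjoint (mu n)
  commutator_bounded := fun a ha => by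
    obtain ⟨C, hC⟩ := good_AA (comm_mu n) a ha
    refine ⟨C, ?_⟩
    rintro x y ⟨hx, rfl⟩
    obtain ⟨hx', hn⟩ := hC ⟨x, hx⟩
    exact ⟨_, ⟨hx', rfl⟩, hn⟩
  R := RRn hn
  bracket := bracket_RRn hn
  compact := RRn_compact hn

lemma STn_pow (hn : 0 < n) : (STn hn).bracketPow n = RR := by
  have hsa : IsSelfAdjoint (RRn hn) := (RRn_isPositive hn).isSelfAdjoint
  rw [← sub_eq_zero]
  apply eq_zero_of_e
  intro p
  rw [ContinuousLinearMap.sub_apply]
  have hv : RRn hn (e p) = ((rn n p : ℝ) : ℂ) • (e p : L2 Ix) := by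
    apply l2_ext
    intro q
    rw [RRn_apply, l2_smul, e_apply]
    split_ifs with h
    · rw [h]
    · simp
  have h0 : (e p : L2 Ix) ≠ 0 := by
    intro h
    have := congrArg (fun x : L2 Ix => x p) h
    simp only [e_self, l2_zero] at this
    exact one_ne_zero this
  have h1 : (STn hn).bracketPow n (e p) = (((rn n p) ^ n : ℝ) : ℂ) • (e p : L2 Ix) :=
    cfc_eigen (RRn hn) hsa (fun x : ℝ => x ^ n)
      (Real.continuous_rpow_const hn.le).continuousOn (rn n p) (e p) hv h0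
  have h2 : RR (e p) = ((rr p : ℝ) : ℂ) • (e p : L2 Ix) := by
    apply l2_ext
    intro q
    rw [RR_apply, l2_smul, e_apply]
    split_ifs with h
    · rw [h]
    · simp
  rw [h1, h2, rn_rpow hn, sub_self]

lemma isDim_n (hn : 0 < n) : (STn hn).IsDim n := by
  constructor
  · intro p hp
    change Summable fun k => sv (RRn hn) k ^ p
    have hp0 : 0 < p := hn.trans hp
    have hq : 1 < p / n := by rwa [one_lt_div hn]
    have h1 : Summable fun k : ℕ => 2 ^ (p / n) * (1 / ((k : ℝ) + 1) ^ (p / n)) := by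
      apply Summable.mul_left
      have := (summable_nat_add_iff 1).mpr (Real.summable_one_div_nat_rpow.mpr hq)
      refine this.congr fun k => ?_
      push_cast; rfl
    refine Summable.of_nonneg_of_le (fun k => Real.rpow_nonneg (sv_nonneg _ _) _) (fun k => ?_) h1
    calc sv (RRn hn) k ^ p ≤ ((2 / ((k : ℝ) + 1)) ^ (1 / n)) ^ p :=
          Real.rpow_le_rpow (sv_nonneg _ _) (sv_upper hn k) hp0.le
      _ = (2 / ((k : ℝ) + 1)) ^ (p / n) := by
          rw [← Real.rpow_mul (by positivity)]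
          congr 1
          ring
      _ = 2 ^ (p / n) * (1 / ((k : ℝ) + 1) ^ (p / n)) := by
          rw [Real.div_rpow (by norm_num) (by positivity), mul_one_div]
  · intro q hq
    by_contra hlt
    push Not at hlt
    have h1 := hq n hlt
    have h2 : Summable fun k : ℕ => 1 / ((k : ℝ) + 2) := by
      refine Summable.of_nonneg_of_le (fun k => by positivity) (fun k => ?_) h1
      change 1 / ((k : ℝ) + 2) ≤ sv (RRn hn) k ^ n
      calc 1 / ((k : ℝ) + 2) = ((1 / ((k : ℝ) + 2)) ^ (1 / n)) ^ n := by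
            rw [← Real.rpow_mul (by positivity)]
            have : 1 / n * n = 1 := by field_simp
            rw [this, Real.rpow_one]
        _ ≤ sv (RRn hn) k ^ n :=
            Real.rpow_le_rpow (Real.rpow_nonneg (by positivity) _) (sv_lower hn k) hn.le
    have h3 : Summable fun k : ℕ => 1 / (k : ℝ) := by
      rw [← summable_nat_add_iff 2]
      refine h2.congr fun k => ?_
      push_cast; rfl
    exact Real.not_summable_one_div_natCast h3

lemma memM1_n (hn : 0 < n) : (STn hn).PowMemM1inf n := by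
  unfold SpectralTriple.PowMemM1inf
  rw [STn_pow]
  exact ⟨RR_compact, 4, avg_RR_upper⟩

lemma Phi_n (hn : 0 < n) (ω : (ℕ → ℝ) → ℝ) (S : L2 Ix →L[ℂ] L2 Ix) :
    (STn hn).Phi n ω S = ST.Phi 1 ω S := by
  unfold SpectralTriple.Phi
  rw [STn_pow, ST_pow]

lemma Phi_Sm_n (hn : 0 < n) (ω : (ℕ → ℝ) → ℝ) (hω : IsDilationLimit ω) (m : ℕ) :
    (STn hn).Phi n ω (Sm m) = 0 := by
  rw [Phi_n]
  exact Phi_Sm ω hω m

lemma Phi_one_n (hn : 0 < n) (ω : (ℕ → ℝ) → ℝ) (hω : IsDilationLimit ω) :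
    1 ≤ ((STn hn).Phi n ω 1).re := by
  rw [Phi_n, Phi_one ω hω, Complex.ofReal_re]
  exact one_le_omega ω hω

end Pool.Agent.Y53.SD
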