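import Mathlib
import Pool.Agent.Y53.SD.Tri

set_option autoImplicit false

open Filter Topology
open scoped InnerProductSpace ComplexOrder symmDiff

noncomputable section

namespace Pool.Agent.Y53.SD

open Pool.Agent.H668R3.NcInt

lemma Sm_isPos (m : ℕ) : (Sm m).IsPositive := by
  rw [← ContinuousLinearMap.nonneg_iff_isPositive]; exact Sm_nonneg m

lemma Sm_sub_isPos (m n : ℕ) (h : m ≤ n) : (Sm n - Sm m).IsPositive := by
  rw [← ContinuousLinearMap.nonneg_iff_isPositive, sub_nonneg]; exact Sm_mono h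

lemma Sm_tend (x : L2 Ix) : Tendsto (fun m => Sm m x) atTop (𝓝 ((1 : L2 Ix →L[ℂ] L2 Ix) x)) := by
  rw [one_apply_eq_self]
  exact Sm_tendsto x

lemma Sm_incr : IncreasesTo Sm (1 : L2 Ix →L[ℂ] L2 Ix) :=
  ⟨Sm_isPos, Sm_sub_isPos, Sm_tend⟩

variable {n : ℝ}

lemma STn_A (hn : 0 < n) : (STn hn).A = AA := rfl

lemma ST_A : ST.A = AA := rfl

lemma bic_n (hn : 0 < n) : (STn hn).bicommutant = CC := by
  rw [← bicomm_eq]
  unfold SpectralTriple.bicommutant
  rw [STn_A, ST_A]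

lemma mem_A (hn : 0 < n) (m : ℕ) : Sm m ∈ (STn hn).A := by
  rw [STn_A]
  exact Sm_mem m

lemma not_normal_n (hn : 0 < n) (ω : (ℕ → ℝ) → ℝ) (hω : IsDilationLimit ω) :
    ¬ (STn hn).PhiNormal n ω := by
  intro h
  unfold SpectralTriple.PhiNormal at h
  have h1 : (STn hn).Phi n ω = ST.Phi 1 ω := funext (Phi_n hn ω)
  rw [h1, bic_n, ← bicomm_eq] at h
  exact not_normal ω hω h

lemma noFin (hn : 0 < n) : (STn hn).NoFiniteRank := by
  intro F hF k hfin
  rw [bic_n] at hF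
  exact no_finite_rank hF hfin.1

lemma CC_cent : Set.centralizer CC = CC := by
  have h := bicomm_eq
  unfold SpectralTriple.bicommutant at h
  rw [ST_A] at h
  exact h

lemma maxAb (hn : 0 < n) : (STn hn).MaximalAbelian := by
  unfold SpectralTriple.MaximalAbelian
  rw [bic_n, CC_cent]

lemma noMin (hn : 0 < n) : (STn hn).NoMinimalProjection := by
  intro P hP hp
  rw [bic_n] at hP ⊢
  obtain ⟨Q, hQ, h1, h2, h3, h4⟩ := no_minimal hP hp.1 hp.2
  exact ⟨Q, hQ, ⟨h1, h3⟩, h2, h4⟩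

end Pool.Agent.Y53.SD
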